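import Pool.Agent.H938R3.TD.BMain
import Pool.Agent.Helper583.TTBFin

/-!
A region without isolated points: the two presentations are not computably homeomorphic.
-/

namespace Pool.Agent.H938R3.TD

open Filter Topology
open Pool.Agent.Helper583.TT hiding Prm tst n2 com cvd fu fz ev1 stp sts num acts ps ps_mem ps_lim num_le computable_sts computable_num computable_acts acts_unique step0 md_mono Nm Cv
open Pool.Agent.H938R3.TC

set_option linter.unusedSectionVars false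

variable {Y : Type} [MetricSpace Y] [CompleteSpace Y] {c : ℕ → Y}

namespace GeoA

variable (G : GeoA c) {h : G.N.Y ≃ₜ G.M.Y} {e : ℕ}

/-- the action of the requirement -/
def PB (e K s : ℕ) : Prop := acts G.Q G.α e s = true ∧ ∀ x : ℝ, 0 ≤ x → x ≤ 1 →
  ∃ σ m, Cv G.Q G.α e s σ x ∧ com G.Q G.A e σ (n1 e K) = some m ∧ m < s

omit [CompleteSpace Y] in
theorem phi_small {s m : ℕ} (ha : acts G.Q G.α e s = true) (hm : m ≤ s) : G.ΦM.f e (c m) = 0 := by
  show phi (acts G.Q G.α) G.ell c e (c m) = 0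
  rw [phi_eq _ _ _ ha (fun s' h' => acts_unique G.Q G.α e h' ha)]
  have h1 : mn (fun j => dist (c m) (c j)) s = 0 := by
    apply le_antisymm
    · refine le_trans (mn_le _ hm) ?_
      rw [dist_self]
    · obtain ⟨j, _, hj⟩ := mn_mem (fun j => dist (c m) (c j)) s
      rw [hj]
      exact dist_nonneg
  rw [h1, zero_mul, min_eq_right zero_le_one]

/-- after the action every `h (y k)` is close to an old point -/
theorem label (hf : RnS G.A G.N G.M h (fc e)) {K s k : ℕ} (hB : G.PB e K s) (hk : s ≤ k) :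
    (∃ m < s, dist (G.M.c m) (h (⟨c (G.y e k)⟩ : GM2 G.ΦN)) ≤ 1 / 2 ^ n1 e K) ∧
    ∃ j ≤ s, dist (GM.val (Φ := G.ΦM) (h (⟨c (G.y e k)⟩ : GM2 G.ΦN))) (c j) ≤
      1 / 2 ^ G.ell s / 2 ^ 10 := by
  obtain ⟨ha, hx⟩ := hB
  obtain ⟨σ, m, h1, h2, h3⟩ := hx (ps G.Q G.α e k) (ps_mem G.Q G.α e k).1 (ps_mem G.Q G.α e k).2
  have h4 := G.com_y hf h1 rfl (by omega) h2
  refine ⟨⟨m, h3, h4⟩, ?_⟩
  set z : GM G.ΦM := h (⟨c (G.y e k)⟩ : GM2 G.ΦN) with hz
  have h5 := gm_coord_le (Φ := G.ΦM) e (⟨c m⟩ : GM G.ΦM) z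
  have h6 : |G.ΦM.f e (c m) - G.ΦM.f e z.val| / 2 ^ e ≤ 1 / 2 ^ n1 e K := le_trans h5 h4
  rw [G.phi_small ha h3.le, zero_sub, abs_neg, abs_of_nonneg (G.ΦM.nonneg _ _),
    div_le_iff₀ (by positivity)] at h6
  have h7 : (1:ℝ) / 2 ^ n1 e K * 2 ^ e ≤ 1 / 2 ^ 10 := by
    unfold n1
    rw [show K + e + 10 = K + 10 + e by ring, pow_add _ (K + 10) e]
    have : (1:ℝ) / (2 ^ (K + 10) * 2 ^ e) * 2 ^ e = 1 / 2 ^ (K + 10) := by
      field_simp
    rw [this]
    exact pow_anti (by omega)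
  have h8 : phi (acts G.Q G.α) G.ell c e z.val ≤ 1 / 2 ^ 10 := le_trans h6 h7
  rw [phi_eq _ _ _ ha (fun s' h' => acts_unique G.Q G.α e h' ha)] at h8
  have h9 : mn (fun j => dist z.val (c j)) s * 2 ^ G.ell s ≤ 1 / 2 ^ 10 := by
    rcases min_le_iff.1 h8 with h9 | h9
    · norm_num at h9
    · exact h9
  obtain ⟨j, hj, hj2⟩ := mn_mem (fun j => dist z.val (c j)) s
  refine ⟨j, hj, ?_⟩
  rw [hj2] at h9
  rw [div_div, mul_comm, ← div_div, le_div_iff₀ (by positivity)]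
  exact h9

omit [CompleteSpace Y] in
/-- labels are unique -/
theorem label_unique {s j j' : ℕ} {z z' : Y} (hj : j ≤ s) (hj' : j' ≤ s)
    (h1 : dist z (c j) ≤ 1 / 2 ^ G.ell s / 2 ^ 10) (h2 : dist z' (c j') ≤ 1 / 2 ^ G.ell s / 2 ^ 10)
    (h3 : dist z z' ≤ 1 / 2 ^ G.ell s) : j = j' := by
  have hη : (0:ℝ) < 1 / 2 ^ G.ell s := by positivity
  have hη2 : (1:ℝ) / 2 ^ G.ell s / 2 ^ 10 ≤ 1 / 2 ^ G.ell s := div_le_self hη.le (by norm_num)
  have h16 : (16:ℝ) / 2 ^ G.ell s = 16 * (1 / 2 ^ G.ell s) := by ring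
  have h4 := dist_triangle4 (c j) z z' (c j')
  rw [dist_comm (c j) z] at h4
  by_contra hne
  rcases lt_or_gt_of_ne hne with h5 | h5
  · have h6 := G.ell3 j j' s h5 hj'
    linarith
  · have h6 := G.ell3 j' j s h5 hj
    rw [dist_comm] at h6
    linarith

omit [CompleteSpace Y] in
theorem ell_lt {s' s : ℕ} (h : s' < s) : G.ell s' + s + 2 ≤ G.ell s := by
  obtain ⟨n, rfl⟩ : ∃ n, s = n + 1 := ⟨s - 1, by omega⟩
  have h1 : G.ell s' ≤ G.ell n := by
    have hm : Monotone G.ell := monotone_nat_of_le_succ fun k => by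
      have := G.ell1 k
      omega
    exact hm (by omega)
  have := G.ell1 n
  omega

omit [CompleteSpace Y] in
theorem phi_zero_of {s m e' : ℕ} (hm : m < s) (h : ∀ s' < s, acts G.Q G.α e' s' = false) :
    G.ΦM.f e' (c m) = 0 := by
  by_cases h1 : ∃ s', acts G.Q G.α e' s' = true
  · obtain ⟨s', hs'⟩ := h1
    have h2 : s ≤ s' := by
      by_contra hcon
      rw [h s' (by omega)] at hs'
      exact Bool.false_ne_true hs'
    exact G.phi_small hs' (by omega)
  · push Not at h1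
    exact phi_zero _ _ _ (fun s' => by simpa using h1 s') _

omit [CompleteSpace Y] in
theorem phi_lip {s' e' : ℕ} (h : acts G.Q G.α e' s' = true) (z z' : Y) :
    |G.ΦM.f e' z - G.ΦM.f e' z'| ≤ dist z z' * 2 ^ G.ell s' := by
  show |phi (acts G.Q G.α) G.ell c e' z - phi (acts G.Q G.α) G.ell c e' z'| ≤ _
  have hu := fun s'' h' => acts_unique G.Q G.α e' (j := s'') h' h
  rw [phi_eq _ _ _ h hu, phi_eq _ _ _ h hu]
  have h1 := mn_lip (fun j => dist z (c j)) (fun j => dist z' (c j)) s' (dist z z')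
    (fun j _ => abs_dist_sub_le _ _ _)
  refine le_trans (abs_min_sub_min_le_max _ _ _ _) ?_
  rw [sub_self, abs_zero, ← sub_mul, abs_mul, abs_of_pos (show (0:ℝ) < 2 ^ G.ell s' by positivity)]
  apply max_le (by positivity)
  exact mul_le_mul_of_nonneg_right h1 (by positivity)

omit [CompleteSpace Y] in
/-- points close in `Y` and close to old points are close in `M` -/
theorem dM_small {s m m' : ℕ} (hm : m < s) (hm' : m' < s) (z z' : GM G.ΦM) :
    dist z z' ≤ dist z.val z'.val + 2 * (dist z.val z'.val * 2 ^ G.ell s / 2 ^ (s + 2)) +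
      dist (⟨c m⟩ : GM G.ΦM) z + dist (⟨c m'⟩ : GM G.ΦM) z' := by
  set C : ℝ := dist z.val z'.val * 2 ^ G.ell s / 2 ^ (s + 2) with hC
  have hC0 : 0 ≤ C := by positivity
  have key : ∀ e', |G.ΦM.f e' z.val - G.ΦM.f e' z'.val| / 2 ^ e' ≤
      (C * (1 / 2) ^ e' + |G.ΦM.f e' (c m) - G.ΦM.f e' z.val| / 2 ^ e') +
        |G.ΦM.f e' (c m') - G.ΦM.f e' z'.val| / 2 ^ e' := by
    intro e'
    have hp : (0:ℝ) < 2 ^ e' := by positivity
    have hp2 : C * (1 / 2) ^ e' = C / 2 ^ e' := by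
      rw [one_div, inv_pow]; rfl
    rw [hp2, ← add_div, ← add_div]
    apply div_le_div_of_nonneg_right _ hp.le
    by_cases h1 : ∃ s' < s, acts G.Q G.α e' s' = true
    · obtain ⟨s', hs', ha⟩ := h1
      have h2 := G.phi_lip ha z.val z'.val
      have h3 : dist z.val z'.val * 2 ^ G.ell s' ≤ C := by
        rw [hC, le_div_iff₀ (by positivity), mul_assoc, ← pow_add]
        apply mul_le_mul_of_nonneg_left _ dist_nonneg
        apply pow_le_pow_right₀ (by norm_num)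
        have := G.ell_lt hs'
        omega
      have h4 := abs_nonneg (G.ΦM.f e' (c m) - G.ΦM.f e' z.val)
      have h5 := abs_nonneg (G.ΦM.f e' (c m') - G.ΦM.f e' z'.val)
      linarith
    · push Not at h1
      have h1' : ∀ s' < s, acts G.Q G.α e' s' = false := fun s' hs' => by simpa using h1 s' hs'
      rw [G.phi_zero_of hm h1', G.phi_zero_of hm' h1', zero_sub, zero_sub, abs_neg, abs_neg,
        abs_of_nonneg (G.ΦM.nonneg _ _), abs_of_nonneg (G.ΦM.nonneg _ _)]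
      have h2 := G.ΦM.nonneg e' z.val
      have h3 := G.ΦM.nonneg e' z'.val
      have h4 : |G.ΦM.f e' z.val - G.ΦM.f e' z'.val| ≤ G.ΦM.f e' z.val + G.ΦM.f e' z'.val := by
        rw [abs_le]; constructor <;> linarith
      linarith
  have hs1 := gdist_summable (Φ := G.ΦM) z.val z'.val
  have hs2 := gdist_summable (Φ := G.ΦM) (c m) z.val
  have hs3 := gdist_summable (Φ := G.ΦM) (c m') z'.val
  have hs4 : Summable fun e' : ℕ => C * (1 / 2 : ℝ) ^ e' := summable_geometric_two.mul_left C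
  have hsum := hs1.tsum_le_tsum key ((hs4.add hs2).add hs3)
  rw [(hs4.add hs2).tsum_add hs3, hs4.tsum_add hs2, tsum_mul_left, tsum_geometric_two] at hsum
  have h5 := gm_dist z z'
  have h6 := gm_dist (⟨c m⟩ : GM G.ΦM) z
  have h7 := gm_dist (⟨c m'⟩ : GM G.ΦM) z'
  have h8 : 0 ≤ dist (c m) z.val := dist_nonneg
  have h9 : 0 ≤ dist (c m') z'.val := dist_nonneg
  simp only at h6 h7
  linarith

end GeoA

end Pool.Agent.H938R3.TD
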