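import Pool.Agent.H938R3.TD.BSpace
import Pool.Agent.Helper583.TTBMain

/-!
A region without isolated points: commitments in the one-sided version.
-/

namespace Pool.Agent.H938R3.TD

open Filter Topology
open Pool.Agent.Helper583.TT hiding Prm tst n2 com cvd fu fz ev1 stp sts num acts ps ps_mem ps_lim num_le computable_sts computable_num computable_acts acts_unique step0 md_mono Nm Cv
open Pool.Agent.H938R3.TC

set_option linter.unusedSectionVars false

variable {Y : Type} [MetricSpace Y] [CompleteSpace Y] {c : ℕ → Y}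

namespace GeoA

variable (G : GeoA c) {h : G.N.Y ≃ₜ G.M.Y} {e : ℕ}

theorem map_getD {σ : List ℕ} {f : ℕ → ℕ} {j : ℕ} (hj : j < σ.length) :
    (σ.map f).getD j 0 = f (σ.getD j 0) := by
  rw [List.getD_eq_getElem _ _ (by rw [List.length_map]; exact hj), List.getD_eq_getElem _ _ hj,
    List.getElem_map]

/-- commitments at the points `y k` -/
theorem com_y (hf : RnS G.A G.N G.M h (fc e)) {k' k n m : ℕ} {σ : List ℕ} {x : ℝ}
    (hσ : Cv G.Q G.α e k' σ x) (hx : x = ps G.Q G.α e k) (hk : k' ≤ k + 1)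
    (hm : com G.Q G.A e σ n = some m) :
    dist (G.M.c m) (h (⟨c (G.y e k)⟩ : GM2 G.ΦN)) ≤ 1 / 2 ^ n := by
  subst hx
  refine commitO hf _ (σ := σ.map (G.y e)) ?_ hm
  intro j hj
  rw [List.length_map] at hj
  rw [map_getD hj]
  obtain ⟨h1, h2, h3⟩ := hσ j hj
  exact G.near_y h1 (by omega) h3

theorem ht_near {g : ℕ} : |ht G.Q G.α e g - G.H e| ≤ |ps G.Q G.α e g - G.L e| := by
  have h1 : Tendsto (fun k => |ht G.Q G.α e g - ht G.Q G.α e k|) atTop
      (𝓝 |ht G.Q G.α e g - G.H e|) := (tendsto_const_nhds.sub (G.hH e)).abs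
  have h2 : Tendsto (fun k => |ps G.Q G.α e g - ps G.Q G.α e k|) atTop
      (𝓝 |ps G.Q G.α e g - G.L e|) := (tendsto_const_nhds.sub (G.hL e)).abs
  exact le_of_tendsto_of_tendsto' h1 h2 fun k => ht_lip

theorem near_w {j g : ℕ} (hg : j ≤ g) (h : |ps G.Q G.α e g - G.L e| < 2 ^ e / 2 ^ (j + 1)) :
    dist (⟨c (G.y e g)⟩ : GM2 G.ΦN) ⟨G.w e⟩ ≤ 1 / 2 ^ j := by
  rw [G.dist_one (e := e) (fun e' he' => G.pi_y' g he') (fun e' he' => G.pi_w' he'), G.pi_y,
    G.pi_w]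
  have h0 := dg_le (Φ := G.ΦN) (c (G.y e g)) (G.w e)
  have h2 := G.yd e g
  have h4 := pow_anti (show j + 1 ≤ g + 2 by omega)
  have h6 : |ht G.Q G.α e g - G.H e| / 2 ^ e ≤ 1 / 2 ^ (j + 1) := by
    rw [div_le_iff₀ (by positivity)]
    have : (2:ℝ) ^ e / 2 ^ (j + 1) = 1 / 2 ^ (j + 1) * 2 ^ e := by ring
    have := G.ht_near (e := e) (g := g)
    linarith
  have h7 := pow_split j
  linarith

theorem exists_nm (e : ℕ) : ∃ g, Nm G.Q G.α e (G.L e) g := by
  have h1 : ∀ j : ℕ, ∃ g, j ≤ g ∧ |ps G.Q G.α e g - G.L e| < 2 ^ e / 2 ^ (j + 1) := by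
    intro j
    obtain ⟨N, hN⟩ := Metric.tendsto_atTop.1 (G.hL e) (2 ^ e / 2 ^ (j + 1)) (by positivity)
    refine ⟨max j N, le_max_left _ _, ?_⟩
    have := hN (max j N) (le_max_right _ _)
    rwa [Real.dist_eq] at this
  choose g hg using h1
  exact ⟨g, hg⟩

/-- commitments at the point `w` -/
theorem com_w (hf : RnS G.A G.N G.M h (fc e)) {g : ℕ → ℕ} (hg : Nm G.Q G.α e (G.L e) g) :
    ∃ q, IsName G.M q (h (⟨G.w e⟩ : GM2 G.ΦN)) ∧
      (∀ l n m, com G.Q G.A e (pre g l) n = some m → m = q n) ∧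
      ∀ n, ∃ l₀, ∀ l ≥ l₀, com G.Q G.A e (pre g l) n = some (q n) := by
  have h1 : IsName G.N (fun j => G.y e (g j)) (⟨G.w e⟩ : GM2 G.ΦN) := fun j =>
    G.near_w (hg j).1 (hg j).2
  obtain ⟨q, hq, hq1, hq2⟩ := hf.spec h1
  have h2 : ∀ l n, com G.Q G.A e (pre g l) n =
      rn (fc e) (dcf G.A (pre (fun j => G.y e (g j)) l)) n := by
    intro l n
    unfold com pre
    rw [List.map_map]
    rfl
  refine ⟨q, hq, fun l n m => ?_, fun n => ?_⟩
  · rw [h2]; exact hq1 l n m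
  · obtain ⟨l₀, hl₀⟩ := hq2 n
    refine ⟨l₀, fun l hl => ?_⟩
    rw [h2]
    exact hl₀ G.A _ (by rw [pre_length]; exact hl) (pre_take _ hl) (fun _ _ => rfl)

theorem ps_zero {k : ℕ} (h : num G.Q G.α e k = 0) : ps G.Q G.α e k = 0 := by
  unfold ps; rw [h]; simp

theorem L_zero {k₀ : ℕ} (h : ∀ k ≥ k₀, num G.Q G.α e k = 0) : G.L e = 0 := by
  refine tendsto_nhds_unique (G.hL e) ?_
  refine tendsto_const_nhds.congr' ?_
  filter_upwards [eventually_ge_atTop k₀] with k hk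
  exact (G.ps_zero (h k hk)).symm

theorem base_le (m : ℕ) (z : GM G.ΦM) : dist (c m) z.val ≤ dist (G.M.c m) (z : G.M.Y) :=
  gm_base_le (Φ := G.ΦM) (⟨c m⟩ : GM G.ΦM) z

theorem pre_const (l : ℕ) : List.replicate l G.o = pre (fun _ => G.o) l := by
  unfold pre
  rw [List.map_const', List.length_range]

/-- mode zero ends -/
theorem claim1 (hf : RnS G.A G.N G.M h (fc e))
    (h1 : ∀ k, num G.Q G.α e k = 0) (h2 : ∀ k, ev1 G.Q (bt (G.α k)) e k = none) : False := by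
  have hL0 : G.L e = 0 := G.L_zero (k₀ := 0) fun k _ => h1 k
  have hnm : Nm G.Q G.α e (G.L e) (fun j => j) := by
    intro j
    refine ⟨le_rfl, ?_⟩
    rw [G.ps_zero (h1 j), hL0, sub_zero, abs_zero]
    positivity
  have hn : IsName G.N (G.y e) (⟨G.w e⟩ : GM2 G.ΦN) := fun j =>
    G.near_w (hnm j).1 (hnm j).2
  have hn' : IsName G.N (fun _ => G.o) (⟨c G.o⟩ : GM2 G.ΦN) := fun j => by
    have h3 : dist (⟨c G.o⟩ : GM2 G.ΦN) ⟨c G.o⟩ ≤ 1 / 2 ^ j := by
      rw [dist_self]; positivity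
    exact h3
  obtain ⟨q, hq, hq1, hq2⟩ := hf.spec hn
  obtain ⟨q', hq', hq1', hq2'⟩ := hf.spec hn'
  set z : GM G.ΦM := h (⟨G.w e⟩ : GM2 G.ΦN) with hz
  set z' : GM G.ΦM := h (⟨c G.o⟩ : GM2 G.ΦN) with hz'
  have hne : z.val ≠ z'.val := by
    intro hcon
    have h3 : z = z' := by
      cases hzz : z
      cases hzz' : z'
      rw [hzz, hzz'] at hcon
      simp only at hcon
      rw [hcon]
    have h4 : (⟨G.w e⟩ : GM2 G.ΦN) = ⟨c G.o⟩ := h.injective h3
    have h5 : G.w e = c G.o := congrArg GM2.val h4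
    exact G.wn e G.o h5.symm
  have hd : 0 < dist z.val z'.val := dist_pos.2 hne
  obtain ⟨K, hK⟩ := exists_pow_lt_of_lt_one (show (0:ℝ) < dist z.val z'.val / 3 by positivity)
    (show (1 / 2 : ℝ) < 1 by norm_num)
  rw [one_div_pow] at hK
  have hsp : G.sp (q (K + 3)) (q' (K + 3)) K = true := by
    apply G.sp2
    have a1 := le_trans (G.base_le _ z) (hq (K + 3))
    have a2 := le_trans (G.base_le _ z') (hq' (K + 3))
    have a3 := dist_triangle4 z.val (c (q (K + 3))) (c (q' (K + 3))) z'.val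
    rw [dist_comm z.val (c (q (K + 3)))] at a3
    have a4 : (1:ℝ) / 2 ^ (K + 3) = 1 / 2 ^ K / 8 := by
      rw [pow_add]; field_simp; norm_num
    have a5 : (2:ℝ) / 2 ^ K = 2 * (1 / 2 ^ K) := by ring
    have a6 : (0:ℝ) < 1 / 2 ^ K := by positivity
    rw [a4] at a1 a2
    rw [a5]
    linarith
  obtain ⟨T, hT⟩ := hq2 (K + 3)
  obtain ⟨T', hT'⟩ := hq2' (K + 3)
  obtain ⟨k1, hk1⟩ := G.ap.lim_lt (max T T')
  set l := max (max T T') (max e k1) with hl
  have l1 : T ≤ l := le_trans (le_max_left _ _) (le_max_left _ _)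
  have l2 : T' ≤ l := le_trans (le_max_right _ _) (le_max_left _ _)
  have l4 : e ≤ l := le_trans (le_max_left _ _) (le_max_right _ _)
  have l5 : k1 ≤ l := le_trans (le_max_right _ _) (le_max_right _ _)
  have hp : l ≤ Nat.pair K l := Nat.right_le_pair _ _
  have hbits : ∀ j < max T T', bt (G.α (Nat.pair K l)) j = G.A j :=
    hk1 _ (le_trans l5 hp)
  have h3 := h2 (Nat.pair K l)
  have e1 : rn (fc e) (dcf (bt (G.α (Nat.pair K l))) ((List.range l).map (G.Q.y e))) (K + 3) =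
      some (q (K + 3)) := by
    refine hT _ (pre (G.y e) l) ?_ ?_ ?_
    · rw [pre_length]; exact l1
    · exact pre_take _ l1
    · intro j hj
      exact hbits j (lt_of_lt_of_le hj (le_max_left _ _))
  have e2 : rn (fc e) (dcf (bt (G.α (Nat.pair K l))) (List.replicate l G.Q.o)) (K + 3) =
      some (q' (K + 3)) := by
    have e3 : List.replicate l G.Q.o = pre (fun _ => G.o) l := G.pre_const l
    rw [e3]
    refine hT' _ (pre (fun _ => G.o) l) ?_ ?_ ?_
    · rw [pre_length]; exact l2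
    · exact pre_take _ l2
    · intro j hj
      exact hbits j (lt_of_lt_of_le hj (le_max_right _ _))
  unfold ev1 at h3
  rw [Nat.unpair_pair] at h3
  simp only at h3
  rw [e1, Option.bind_some, e2, Option.bind_some, if_pos] at h3
  · simp at h3
  · exact ⟨hsp, le_trans l4 hp⟩

/-- a late point at position zero and a late point at position one have separated values -/
theorem guard (hf : RnS G.A G.N G.M h (fc e)) {k₀ K : ℕ}
    (ht : Tr G.A G.α k₀) (h0 : trn G.Q G.α e 0 k₀ = true)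
    (h1 : ev1 G.Q (bt (G.α k₀)) e k₀ = some K) (h2 : ∀ k ≤ k₀, num G.Q G.α e k = 0) {k k' : ℕ}
    (hk : k₀ < k) (hz : num G.Q G.α e k = 0) (hk' : k₀ < k') (hz' : num G.Q G.α e k' = 2 ^ k')
    (hd : dist (h (⟨c (G.y e k')⟩ : GM2 G.ΦN)) (h (⟨c (G.y e k)⟩ : GM2 G.ΦN)) ≤ 1 / 2 ^ K) :
    False := by
  unfold ev1 at h1
  rw [Option.bind_eq_some_iff] at h1
  obtain ⟨m, hm, h1⟩ := h1
  rw [Option.bind_eq_some_iff] at h1
  obtain ⟨m', hm', h1⟩ := h1
  split at h1
  swap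
  · simp at h1
  rename_i hsp
  obtain ⟨hsp, -⟩ := hsp
  simp only [Option.some.injEq] at h1
  have hk2 : k₀.unpair.2 ≤ k₀ := Nat.unpair_right_le k₀
  have hd1 : dcf (bt (G.α k₀)) ((List.range k₀.unpair.2).map (G.Q.y e)) =
      dcf G.A ((List.range k₀.unpair.2).map (G.y e)) := by
    apply dcf_congr
    intro j hj
    rw [List.length_map, List.length_range] at hj
    exact ht j (by omega)
  have hd2 : dcf (bt (G.α k₀)) (List.replicate k₀.unpair.2 G.Q.o) =
      dcf G.A (List.replicate k₀.unpair.2 G.o) := by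
    apply dcf_congr
    intro j hj
    rw [List.length_replicate] at hj
    exact ht j (by omega)
  rw [hd1] at hm
  rw [hd2] at hm'
  have e1 : dist (G.M.c m) (h (⟨c (G.y e k)⟩ : GM2 G.ΦN)) ≤ 1 / 2 ^ (k₀.unpair.1 + 3) := by
    refine commitO hf _ ?_ hm
    intro j hj
    rw [List.length_map, List.length_range] at hj
    rw [map_getD (by rw [List.length_range]; exact hj)]
    have h3 : (List.range k₀.unpair.2).getD j 0 = j := by
      rw [List.getD_eq_getElem _ _ (by rw [List.length_range]; exact hj), List.getElem_range]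
    rw [h3]
    apply G.near_y le_rfl (by omega)
    rw [G.ps_zero (h2 j (by omega)), G.ps_zero hz, sub_zero, abs_zero]
    positivity
  have e2 : dist (G.M.c m') (h (⟨c (G.y e k')⟩ : GM2 G.ΦN)) ≤ 1 / 2 ^ (k₀.unpair.1 + 3) := by
    refine commitO hf _ ?_ hm'
    intro j hj
    have hj' := hj
    rw [List.length_replicate] at hj'
    rw [List.getD_eq_getElem _ _ hj, List.getElem_replicate]
    exact G.near_o h0 (by omega) hk' hz'
  have e3 := G.sp1 _ _ _ hsp
  have e4 : dist (c m) (c m') ≤ dist (G.M.c m) (G.M.c m') :=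
    gm_base_le (Φ := G.ΦM) (⟨c m⟩ : GM G.ΦM) ⟨c m'⟩
  have e5 := dist_triangle4 (G.M.c m) (h (⟨c (G.y e k)⟩ : GM2 G.ΦN))
    (h (⟨c (G.y e k')⟩ : GM2 G.ΦN)) (G.M.c m')
  rw [dist_comm (h (⟨c (G.y e k)⟩ : GM2 G.ΦN)) (h (⟨c (G.y e k')⟩ : GM2 G.ΦN)),
    dist_comm (h (⟨c (G.y e k')⟩ : GM2 G.ΦN)) (G.M.c m')] at e5
  rw [← h1] at hd
  have a4 : (1:ℝ) / 2 ^ (k₀.unpair.1 + 3) = 1 / 2 ^ k₀.unpair.1 / 8 := by
    rw [pow_add]; field_simp; norm_num
  have a5 : (1:ℝ) / 2 ^ (k₀.unpair.1 + 2) = 1 / 2 ^ k₀.unpair.1 / 4 := by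
    rw [pow_add]; field_simp; norm_num
  have a6 : (0:ℝ) < 1 / 2 ^ k₀.unpair.1 := by positivity
  rw [a4] at e1 e2
  rw [a5] at hd
  linarith

end GeoA

end Pool.Agent.H938R3.TD
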