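import Pool.Agent.Helper583.TTBSpace

/-!
A metric in which the points of a compact set `F` are only separated by the coordinates.
-/

namespace Pool.Agent.H938R3.TD

open Pool.Agent.Helper583.TT
open Filter Topology

/-- coordinates which separate the points of the compact set `F` -/
structure Crd2 (Y : Type) [MetricSpace Y] extends Crd Y where
  F : Set Y
  cpt : IsCompact F
  ne : F.Nonempty
  sep : ∀ x ∈ F, ∀ y ∈ F, (∀ e, f e x = f e y) → x = y

/-- the space `Y` with the new metric -/
structure GM2 {Y : Type} [MetricSpace Y] (Φ : Crd2 Y) where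
  val : Y

variable {Y : Type} [MetricSpace Y] {Φ : Crd2 Y}

/-- distance to the compact set -/
noncomputable def rr (Φ : Crd2 Y) (x : Y) : ℝ := Metric.infDist x Φ.F

/-- the metric with the compact set collapsed -/
noncomputable def dg (Φ : Crd2 Y) (x y : Y) : ℝ := min (dist x y) (rr Φ x + rr Φ y)

theorem rr_nonneg (x : Y) : 0 ≤ rr Φ x := Metric.infDist_nonneg

theorem rr_lip (x y : Y) : rr Φ x ≤ rr Φ y + dist x y := Metric.infDist_le_infDist_add_dist

theorem dg_nonneg (x y : Y) : 0 ≤ dg Φ x y :=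
  le_min dist_nonneg (add_nonneg (rr_nonneg x) (rr_nonneg y))

theorem dg_le (x y : Y) : dg Φ x y ≤ dist x y := min_le_left _ _

theorem dg_triangle (x y z : Y) : dg Φ x z ≤ dg Φ x y + dg Φ y z := by
  unfold dg
  have h1 := dist_triangle x y z
  have h2 := rr_lip (Φ := Φ) x y
  have h3 := rr_lip (Φ := Φ) z y
  rw [dist_comm z y] at h3
  have h4 := rr_nonneg (Φ := Φ) y
  rcases min_choice (dist x y) (rr Φ x + rr Φ y) with a | a <;>
  rcases min_choice (dist y z) (rr Φ y + rr Φ z) with b | b <;> rw [a, b]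
  · exact (min_le_left _ _).trans h1
  · refine (min_le_right _ _).trans ?_
    linarith
  · refine (min_le_right _ _).trans ?_
    linarith
  · refine (min_le_right _ _).trans ?_
    linarith

theorem mem_of_rr {x : Y} (h : rr Φ x = 0) : x ∈ Φ.F :=
  (Φ.cpt.isClosed.mem_iff_infDist_zero Φ.ne).2 h

noncomputable instance gm2Metric : MetricSpace (GM2 Φ) where
  dist := fun x y => dg Φ x.val y.val + ∑' e, |Φ.f e x.val - Φ.f e y.val| / 2 ^ e
  dist_self := by
    intro x
    have h : dg Φ x.val x.val = 0 :=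
      le_antisymm ((dg_le _ _).trans (dist_self _).le) (dg_nonneg _ _)
    simp [h]
  dist_comm := by
    intro x y
    have h : dg Φ x.val y.val = dg Φ y.val x.val := by
      unfold dg
      rw [dist_comm x.val y.val, add_comm (rr Φ x.val)]
    simp only [h]
    congr 1
    apply tsum_congr
    intro e
    rw [abs_sub_comm]
  dist_triangle := by
    intro x y z
    have h1 := dg_triangle (Φ := Φ) x.val y.val z.val
    have h2 : ∑' e, |Φ.f e x.val - Φ.f e z.val| / 2 ^ e ≤
        ∑' e, |Φ.f e x.val - Φ.f e y.val| / 2 ^ e + ∑' e, |Φ.f e y.val - Φ.f e z.val| / 2 ^ e := by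
      rw [← (gdist_summable (Φ := Φ.toCrd) x.val y.val).tsum_add
        (gdist_summable (Φ := Φ.toCrd) y.val z.val)]
      apply Summable.tsum_le_tsum _ (gdist_summable (Φ := Φ.toCrd) x.val z.val)
        ((gdist_summable (Φ := Φ.toCrd) x.val y.val).add (gdist_summable (Φ := Φ.toCrd) y.val z.val))
      intro e
      rw [← add_div]
      gcongr
      exact abs_sub_le _ _ _
    linarith
  eq_of_dist_eq_zero := by
    intro x y h
    change dg Φ x.val y.val + ∑' e, |Φ.f e x.val - Φ.f e y.val| / 2 ^ e = 0 at h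
    have h1 := gtsum_nonneg (Φ := Φ.toCrd) x.val y.val
    have h0 := dg_nonneg (Φ := Φ) x.val y.val
    have h2 : dg Φ x.val y.val = 0 := by linarith
    have h3 : ∑' e, |Φ.f e x.val - Φ.f e y.val| / 2 ^ e = 0 := by linarith
    have h4 : x.val = y.val := by
      unfold dg at h2
      rcases min_choice (dist x.val y.val) (rr Φ x.val + rr Φ y.val) with a | a
      · rw [a] at h2
        exact dist_eq_zero.1 h2
      · rw [a] at h2
        have a1 := rr_nonneg (Φ := Φ) x.val
        have a2 := rr_nonneg (Φ := Φ) y.val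
        refine Φ.sep _ (mem_of_rr (by linarith)) _ (mem_of_rr (by linarith)) fun e => ?_
        have h5 := (gdist_summable (Φ := Φ.toCrd) x.val y.val).le_tsum e
          (fun j _ => gterm_nonneg j x.val y.val)
        have h6 : |Φ.f e x.val - Φ.f e y.val| / 2 ^ e ≤ 0 := by
          rw [← h3]; exact h5
        have h7 : |Φ.f e x.val - Φ.f e y.val| ≤ 0 := by
          by_contra hcon
          push Not at hcon
          have : 0 < |Φ.f e x.val - Φ.f e y.val| / 2 ^ e := by positivity
          linarith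
        have h8 := abs_eq_zero.1 (le_antisymm h7 (abs_nonneg _))
        linarith
    cases x
    cases y
    simp only at h4
    rw [h4]

theorem gm2_dist (x y : GM2 Φ) :
    dist x y = dg Φ x.val y.val + ∑' e, |Φ.f e x.val - Φ.f e y.val| / 2 ^ e := rfl

theorem gm2_base_le (x y : GM2 Φ) : dg Φ x.val y.val ≤ dist x y := by
  rw [gm2_dist]
  linarith [gtsum_nonneg (Φ := Φ.toCrd) x.val y.val]

theorem gm2_mk_cont : Continuous (GM2.mk : Y → GM2 Φ) := by
  rw [continuous_iff_continuousAt]
  intro y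
  unfold ContinuousAt
  rw [tendsto_iff_dist_tendsto_zero]
  have hc : Continuous fun x : Y => dist x y + ∑' e, |Φ.f e x - Φ.f e y| / 2 ^ e := by
    refine Continuous.add (continuous_id.dist continuous_const) ?_
    refine continuous_tsum (u := fun e => (1 / 2 : ℝ) ^ e) ?_ summable_geometric_two ?_
    · intro e
      exact (((Φ.cont e).sub continuous_const).abs).div_const _
    · intro e x
      rw [Real.norm_of_nonneg (gterm_nonneg (Φ := Φ.toCrd) e x y)]
      exact gterm_le e x y
  have h0 := hc.tendsto y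
  simp only [dist_self, sub_self, abs_zero, zero_div, tsum_zero, add_zero] at h0
  refine squeeze_zero (fun x => dist_nonneg) (fun x => ?_) h0
  rw [gm2_dist]
  exact add_le_add (dg_le x y) le_rfl

/-- a sequence whose distance from `F` tends to zero has a subsequence converging in `Y` -/
theorem sub_of_rr {u : ℕ → Y} (h : Tendsto (fun n => rr Φ (u n)) atTop (𝓝 0)) :
    ∃ a, ∃ φ : ℕ → ℕ, StrictMono φ ∧ Tendsto (u ∘ φ) atTop (𝓝 a) := by
  have h1 : ∀ n, ∃ f ∈ Φ.F, rr Φ (u n) = dist (u n) f := fun n =>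
    Φ.cpt.exists_infDist_eq_dist Φ.ne (u n)
  choose f hf hf2 using h1
  obtain ⟨a, -, φ, hφ, ha⟩ := Φ.cpt.tendsto_subseq hf
  refine ⟨a, φ, hφ, ?_⟩
  rw [tendsto_iff_dist_tendsto_zero] at ha ⊢
  have h2 : Tendsto (fun n => rr Φ (u (φ n)) + dist ((f ∘ φ) n) a) atTop (𝓝 0) := by
    have := (h.comp hφ.tendsto_atTop).add ha
    simpa using this
  refine squeeze_zero (fun n => dist_nonneg) (fun n => ?_) h2
  rw [hf2]
  exact dist_triangle _ _ _

theorem gm2_val_cont : Continuous (GM2.val : GM2 Φ → Y) := by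
  rw [Metric.continuous_iff]
  intro z ε hε
  rcases (rr_nonneg (Φ := Φ) z.val).lt_or_eq with hz | hz
  · refine ⟨min ε (rr Φ z.val), lt_min hε hz, fun a ha => ?_⟩
    have h1 := lt_of_le_of_lt (gm2_base_le a z) ha
    have h2 := h1.trans_le (min_le_left _ _)
    have h3 := h1.trans_le (min_le_right _ _)
    unfold dg at h2 h3
    rcases min_choice (dist a.val z.val) (rr Φ a.val + rr Φ z.val) with h | h
    · rwa [h] at h2
    · rw [h] at h3
      have := rr_nonneg (Φ := Φ) a.val
      linarith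
  · by_contra hcon
    push Not at hcon
    have h1 : ∀ n : ℕ, ∃ a : GM2 Φ, dist a z < min ε ((1 / 2) ^ n) ∧ ε ≤ dist a.val z.val := by
      intro n
      exact hcon _ (lt_min hε (by positivity))
    choose a ha ha2 using h1
    have h2 : ∀ n, rr Φ (a n).val ≤ (1 / 2) ^ n := by
      intro n
      have h3 := lt_of_le_of_lt (gm2_base_le (a n) z) (ha n)
      have h4 := h3.trans_le (min_le_left _ _)
      have h5 := h3.trans_le (min_le_right _ _)
      unfold dg at h4 h5
      rcases min_choice (dist (a n).val z.val) (rr Φ (a n).val + rr Φ z.val) with h | h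
      · rw [h] at h4
        have := ha2 n
        linarith
      · rw [h, ← hz] at h5
        linarith
    have h3 : Tendsto (fun n : ℕ => (1 / 2 : ℝ) ^ n) atTop (𝓝 0) :=
      tendsto_pow_atTop_nhds_zero_of_lt_one (by norm_num) (by norm_num)
    have h4 : Tendsto (fun n => rr Φ (a n).val) atTop (𝓝 0) :=
      squeeze_zero (fun n => rr_nonneg _) h2 h3
    obtain ⟨b, φ, hφ, hb⟩ := sub_of_rr (u := fun n => (a n).val) h4
    have h5 : Tendsto (fun n => a (φ n)) atTop (𝓝 (⟨b⟩ : GM2 Φ)) := by
      have := ((gm2_mk_cont (Φ := Φ)).tendsto b).comp hb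
      exact this
    have h6 : Tendsto (fun n => a (φ n)) atTop (𝓝 z) := by
      have h7 : Tendsto a atTop (𝓝 z) := by
        rw [tendsto_iff_dist_tendsto_zero]
        exact squeeze_zero (fun n => dist_nonneg)
          (fun n => ((ha n).trans_le (min_le_right _ _)).le) h3
      exact h7.comp hφ.tendsto_atTop
    have h7 := tendsto_nhds_unique h5 h6
    have h8 : b = z.val := by rw [← h7]
    rw [h8, tendsto_iff_dist_tendsto_zero] at hb
    have h9 := hb.eventually_lt_const hε
    obtain ⟨n, hn⟩ := h9.exists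
    have := ha2 (φ n)
    simp only [Function.comp] at hn
    linarith

/-- topologically nothing has changed -/
noncomputable def gm2Homeo : GM2 Φ ≃ₜ Y where
  toFun := GM2.val
  invFun := GM2.mk
  left_inv := fun _ => rfl
  right_inv := fun _ => rfl
  continuous_toFun := gm2_val_cont
  continuous_invFun := gm2_mk_cont

theorem gm2_complete [CompleteSpace Y] : CompleteSpace (GM2 Φ) := by
  apply Metric.complete_of_cauchySeq_tendsto
  intro u hu
  suffices h : ∃ a : Y, ∃ φ : ℕ → ℕ, StrictMono φ ∧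
      Tendsto (fun n => (u (φ n)).val) atTop (𝓝 a) by
    obtain ⟨a, φ, hφ, ha⟩ := h
    refine ⟨⟨a⟩, tendsto_nhds_of_cauchySeq_of_subseq hu hφ.tendsto_atTop ?_⟩
    exact ((gm2_mk_cont (Φ := Φ)).tendsto a).comp ha
  by_cases h : ∃ δ > 0, ∃ᶠ n in atTop, δ ≤ rr Φ (u n).val
  · obtain ⟨δ, hδ, hf⟩ := h
    obtain ⟨φ, hφ, hφ2⟩ := extraction_of_frequently_atTop hf
    have h1 : CauchySeq fun n => (u (φ n)).val := by
      rw [Metric.cauchySeq_iff] at hu ⊢
      intro ε hε
      obtain ⟨N, hN⟩ := hu (min ε δ) (lt_min hε hδ)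
      refine ⟨N, fun m hm n hn => ?_⟩
      have h2 := lt_of_le_of_lt (gm2_base_le (u (φ m)) (u (φ n)))
        (hN (φ m) (le_trans hm (hφ.id_le m)) (φ n) (le_trans hn (hφ.id_le n)))
      have h3 := h2.trans_le (min_le_left _ _)
      have h4 := h2.trans_le (min_le_right _ _)
      unfold dg at h3 h4
      rcases min_choice (dist (u (φ m)).val (u (φ n)).val)
        (rr Φ (u (φ m)).val + rr Φ (u (φ n)).val) with h | h
      · rwa [h] at h3
      · rw [h] at h4
        have := hφ2 m
        have := rr_nonneg (Φ := Φ) (u (φ n)).val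
        linarith
    obtain ⟨a, ha⟩ := cauchySeq_tendsto_of_complete h1
    exact ⟨a, φ, hφ, ha⟩
  · have h1 : Tendsto (fun n => rr Φ (u n).val) atTop (𝓝 0) := by
      rw [Metric.tendsto_atTop]
      intro ε hε
      have h2 : ¬ ∃ᶠ n in atTop, ε ≤ rr Φ (u n).val := fun hf => h ⟨ε, hε, hf⟩
      rw [not_frequently] at h2
      obtain ⟨N, hN⟩ := eventually_atTop.1 h2
      refine ⟨N, fun n hn => ?_⟩
      rw [Real.dist_eq, sub_zero, abs_of_nonneg (rr_nonneg _)]
      exact not_le.1 (hN n hn)
    obtain ⟨a, φ, hφ, ha⟩ := sub_of_rr (u := fun n => (u n).val) h1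
    exact ⟨a, φ, hφ, ha⟩

theorem gm2_dense {c : ℕ → Y} (hd : DenseRange c) : DenseRange fun i => (⟨c i⟩ : GM2 Φ) := by
  exact (gm2Homeo (Φ := Φ)).symm.surjective.denseRange.comp hd
    (gm2Homeo (Φ := Φ)).symm.continuous

/-- computability of the new metric -/
theorem cr_gm2 {c : ℕ → Y} (hc : CR fun p : ℕ × ℕ => dist (c p.1) (c p.2)) (Φ : Crd2 Y)
    (hr : CR fun i : ℕ => rr Φ (c i)) (hΦ : CR fun p : ℕ × ℕ => Φ.f p.1 (c p.2)) :
    CR fun p : ℕ × ℕ => dist (⟨c p.1⟩ : GM2 Φ) ⟨c p.2⟩ := by
  have h1 : CR (fun q : (ℕ × ℕ) × ℕ => |Φ.f q.2 (c q.1.1) - Φ.f q.2 (c q.1.2)|) :=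
    CR.absdiff
      (CR.comp hΦ (g := fun q : (ℕ × ℕ) × ℕ => (q.2, q.1.1))
        (Computable.pair Computable.snd (Computable.fst.comp Computable.fst)))
      (CR.comp hΦ (g := fun q : (ℕ × ℕ) × ℕ => (q.2, q.1.2))
        (Computable.pair Computable.snd (Computable.snd.comp Computable.fst)))
  have h2 := CR.tsum h1 (fun q => by
    have a1 := Φ.nonneg q.2 (c q.1.1)
    have a2 := Φ.nonneg q.2 (c q.1.2)
    have a3 := Φ.le_one q.2 (c q.1.1)
    have a4 := Φ.le_one q.2 (c q.1.2)
    rw [abs_le]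
    constructor <;> linarith)
  have h3 : CR fun p : ℕ × ℕ => dg Φ (c p.1) (c p.2) :=
    CR.min hc (CR.add (hr.comp (Computable.fst (α := ℕ) (β := ℕ)))
      (hr.comp (Computable.snd (α := ℕ) (β := ℕ))))
  exact (CR.add h3 h2).congr fun p => rfl

end Pool.Agent.H938R3.TD
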