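import Pool.Agent.Helper583.TTBSpace

/-!
The geometry of a region without isolated points: the limit points converge to the centre.
-/

namespace Pool.Agent.H938R3.TD

open Pool.Agent.Helper583.TT
open Pool.Agent.Helper583.TT.TTGeo

/-- In a computable metric space (dense sequence `c`, injective, computable distances) with an open
ball without isolated points there are uniformly computable points `w e` which are not in the dense
sequence, with well separated approximations `c (y e k)` and well separated neighbourhoods. -/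
theorem geom1 {Y : Type} [MetricSpace Y] [CompleteSpace Y] (c : ℕ → Y) (hd : DenseRange c)
    (hinj : Function.Injective c) (hc : CR fun p : ℕ × ℕ => dist (c p.1) (c p.2))
    (o u : ℕ) (hU : ∀ x : Y, dist x (c o) < 1 / 2 ^ u → ¬ IsOpen ({x} : Set Y)) :
    ∃ (y ρ : ℕ → ℕ → ℕ) (w : ℕ → Y), Computable₂ y ∧ Computable₂ ρ ∧
      (∀ e k, ρ e k < ρ e (k + 1)) ∧ (∀ e k, k + 1 ≤ ρ e k) ∧
      (∀ e k, 2 / 2 ^ ρ e (k + 1) ≤ dist (c (y e k)) (w e)) ∧
      (∀ e k, dist (c (y e k)) (w e) ≤ 1 / 2 ^ ρ e k / 2) ∧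
      (∀ e i, c i ≠ w e) ∧
      (∀ e e', e ≠ e' → 2 / 2 ^ ρ e 0 + 2 / 2 ^ ρ e' 0 ≤ dist (w e) (w e')) ∧
      (∀ e, dist (w e) (c o) ≤ 1 / 2 ^ e) ∧
      (∀ e, 2 / 2 ^ ρ e 0 ≤ dist (c o) (w e)) := by
  obtain ⟨L, hLc, hL1, hL2⟩ := cmp_lt hc
  obtain ⟨G, hGc, hG1, hG2⟩ := cmp_gt hc
  have cz1 : ∀ {γ : Type} [Primcodable γ], Computable (fun w : γ × ℕ => w.2.unpair.1) :=
    fun {γ} _ => Computable.fst.comp (Computable.unpair.comp Computable.snd)
  have cz2 : ∀ {γ : Type} [Primcodable γ], Computable (fun w : γ × ℕ => w.2.unpair.2.unpair.1) :=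
    fun {γ} _ => Computable.fst.comp (Computable.unpair.comp
      (Computable.snd.comp (Computable.unpair.comp Computable.snd)))
  have cz3 : ∀ {γ : Type} [Primcodable γ], Computable (fun w : γ × ℕ => w.2.unpair.2.unpair.2) :=
    fun {γ} _ => Computable.snd.comp (Computable.unpair.comp
      (Computable.snd.comp (Computable.unpair.comp Computable.snd)))
  -- first recursion
  obtain ⟨S, hSc, hS0, hSI, hSS⟩ := exists_rec (α := Unit) (σ := ℕ × ℕ)
    (fun _ => (0, u + 1)) (Computable.const _)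
    (fun x z => L (z.unpair.1, o) 1 (x.2.2.2 + 4) z.unpair.2.unpair.2 &&
      (G (z.unpair.1, o) 16 z.unpair.2.unpair.1 z.unpair.2.unpair.2 &&
        decide (x.2.2.2 < z.unpair.2.unpair.1)))
    (by
      have ca : Computable (fun w : (Unit × ℕ × ℕ × ℕ) × ℕ => w.1.2.2.2) :=
        Computable.snd.comp (Computable.snd.comp (Computable.snd.comp Computable.fst))
      apply comp_and
      · exact hLc _ _ _ _ (cz1.pair (Computable.const o)) (Computable.const 1)
          (comp_add ca (Computable.const 4)) cz3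
      · apply comp_and
        · exact hGc _ _ _ _ (cz1.pair (Computable.const o)) (Computable.const 16) cz2 cz3
        · exact comp_dec_lt ca cz2)
    (fun _ z => (z.unpair.1, z.unpair.2.unpair.1)) (cz1.pair cz2)
    (fun _ _ s => u + 1 ≤ s.2) (fun _ => le_rfl)
    (by
      rintro _ k ⟨p, a⟩ _
      have h0 : ¬ IsOpen ({c o} : Set Y) := hU (c o) (by rw [dist_self]; positivity)
      obtain ⟨i, hi, hi'⟩ := near_pt c hd h0 (r := 1 / 2 ^ (a + 4)) (by positivity)
      obtain ⟨b, hb, hb'⟩ := exists_pow_small (dist_pos.2 hi) 16 (by norm_num) a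
      obtain ⟨T1, hT1⟩ := hL2 (i, o) 1 (a + 4) (by simpa using hi')
      obtain ⟨T2, hT2⟩ := hG2 (i, o) 16 b (by simpa using hb')
      refine ⟨Nat.pair i (Nat.pair b (max T1 T2)), ?_⟩
      simp only [Nat.unpair_pair, hT1 _ (le_max_left T1 T2), hT2 _ (le_max_right T1 T2),
        Bool.true_and, decide_eq_true_eq]
      exact hb)
    (by
      rintro _ k ⟨p, a⟩ z h hR
      simp only [Bool.and_eq_true, decide_eq_true_eq] at hR h ⊢
      omega)
  set p : ℕ → ℕ := fun e => (S () (e + 1)).1 with hp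
  set A : ℕ → ℕ := fun e => (S () e).2 with hA
  have hP : ∀ e, dist (c (p e)) (c o) < 1 / 2 ^ (A e + 4) ∧
      16 / 2 ^ (A (e + 1)) < dist (c (p e)) (c o) ∧ A e < A (e + 1) := by
    intro e
    obtain ⟨z, hz, hz'⟩ := hSS () e
    simp only [Bool.and_eq_true, decide_eq_true_eq] at hz
    obtain ⟨h1, h2, h3⟩ := hz
    have e1 : p e = z.unpair.1 := by simp only [hp, hz']
    have e2 : A (e + 1) = z.unpair.2.unpair.1 := by simp only [hA, hz']
    rw [e1, e2]
    refine ⟨?_, ?_, h3⟩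
    · have := hL1 _ _ _ _ h1
      simpa using this
    · have := hG1 _ _ _ _ h2
      simpa using this
  have hAu : ∀ e, u + 1 ≤ A e := fun e => hSI () e
  -- second recursion
  obtain ⟨S2, hSc2, hS02, hSI2, hSS2⟩ := exists_rec (α := ℕ) (σ := ℕ × ℕ)
    (fun e => S () (e + 1)) (hSc.comp (Computable.const ()) Computable.succ)
    (fun x z => L (z.unpair.1, x.2.2.1) 1 (x.2.2.2 + 3) z.unpair.2.unpair.2 &&
      (G (z.unpair.1, x.2.2.1) 4 z.unpair.2.unpair.1 z.unpair.2.unpair.2 &&
        (G (z.unpair.1, x.2.1) 4 z.unpair.2.unpair.1 z.unpair.2.unpair.2 &&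
          decide (x.2.2.2 + 2 < z.unpair.2.unpair.1))))
    (by
      have cb : Computable (fun w : (ℕ × ℕ × ℕ × ℕ) × ℕ => w.1.2.2.2) :=
        Computable.snd.comp (Computable.snd.comp (Computable.snd.comp Computable.fst))
      have ci : Computable (fun w : (ℕ × ℕ × ℕ × ℕ) × ℕ => w.1.2.2.1) :=
        Computable.fst.comp (Computable.snd.comp (Computable.snd.comp Computable.fst))
      have ck : Computable (fun w : (ℕ × ℕ × ℕ × ℕ) × ℕ => w.1.2.1) :=
        Computable.fst.comp (Computable.snd.comp Computable.fst)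
      apply comp_and
      · exact hLc _ _ _ _ (cz1.pair ci) (Computable.const 1)
          (comp_add cb (Computable.const 3)) cz3
      · apply comp_and
        · exact hGc _ _ _ _ (cz1.pair ci) (Computable.const 4) cz2 cz3
        · apply comp_and
          · exact hGc _ _ _ _ (cz1.pair ck) (Computable.const 4) cz2 cz3
          · exact comp_dec_lt (comp_add cb (Computable.const 2)) cz2)
    (fun _ z => (z.unpair.1, z.unpair.2.unpair.1)) (cz1.pair cz2)
    (fun _ k s => dist (c s.1) (c o) + 1 / 2 ^ s.2 < 1 / 2 ^ u ∧ k + 1 ≤ s.2)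
    (by
      intro e
      obtain ⟨h1, h2, h3⟩ := hP e
      have h4 := hAu e
      have h5 := hAu (e + 1)
      refine ⟨?_, by simp only [hA] at h5; omega⟩
      show dist (c (p e)) (c o) + 1 / 2 ^ A (e + 1) < 1 / 2 ^ u
      have h6 : (1:ℝ) / 2 ^ (A e + 4) ≤ 1 / 2 ^ (u + 1) := by
        apply one_div_le_one_div_of_le (by positivity)
        apply pow_le_pow_right₀ (by norm_num)
        omega
      have h7 : (16:ℝ) / 2 ^ A (e + 1) = 16 * (1 / 2 ^ A (e + 1)) := by ring
      have h8 : (1:ℝ) / 2 ^ (u + 1) = 1 / 2 ^ u / 2 := by rw [pow_succ]; field_simp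
      have h9 : (0:ℝ) < 1 / 2 ^ u := by positivity
      rw [h7] at h2
      rw [h8] at h6
      linarith)
    (by
      rintro e k ⟨i, b⟩ ⟨h1, h2⟩
      simp only at h1 h2
      have h0 : ¬ IsOpen ({c i} : Set Y) := hU (c i) (by
        have : (0:ℝ) < 1 / 2 ^ b := by positivity
        linarith)
      obtain ⟨j, hj1, hj2, hj3⟩ := near_pt2 c hd h0 (r := 1 / 2 ^ (b + 3)) (by positivity) k
      obtain ⟨b', hb1, hb2⟩ := exists_pow_small (lt_min (dist_pos.2 hj1) (dist_pos.2 hj2)) 4
        (by norm_num) (b + 2)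
      obtain ⟨T1, hT1⟩ := hL2 (j, i) 1 (b + 3) (by simpa using hj3)
      obtain ⟨T2, hT2⟩ := hG2 (j, i) 4 b' (by simpa using hb2.trans_le (min_le_left _ _))
      obtain ⟨T3, hT3⟩ := hG2 (j, k) 4 b' (by simpa using hb2.trans_le (min_le_right _ _))
      refine ⟨Nat.pair j (Nat.pair b' (max T1 (max T2 T3))), ?_⟩
      simp only [Nat.unpair_pair, hT1 _ (le_max_left T1 (max T2 T3)),
        hT2 _ ((le_max_left T2 T3).trans (le_max_right T1 (max T2 T3))),
        hT3 _ ((le_max_right T2 T3).trans (le_max_right T1 (max T2 T3))),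
        Bool.true_and, decide_eq_true_eq]
      exact hb1)
    (by
      rintro e k ⟨i, b⟩ z ⟨h1, h2⟩ hR
      simp only [Bool.and_eq_true, decide_eq_true_eq] at hR h1 h2 ⊢
      obtain ⟨r1, r2, r3, r4⟩ := hR
      have q1 : dist (c z.unpair.1) (c i) < 1 / 2 ^ (b + 3) := by
        have := hL1 _ _ _ _ r1
        simpa using this
      refine ⟨?_, by omega⟩
      have q2 := dist_triangle (c z.unpair.1) (c i) (c o)
      have q3 : (1:ℝ) / 2 ^ (b + 3) = 1 / 2 ^ b / 8 := by rw [pow_add]; field_simp; norm_num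
      have q4 : (1:ℝ) / 2 ^ z.unpair.2.unpair.1 ≤ 1 / 2 ^ (b + 3) := by
        apply one_div_le_one_div_of_le (by positivity)
        apply pow_le_pow_right₀ (by norm_num)
        omega
      have q5 : (0:ℝ) < 1 / 2 ^ b := by positivity
      rw [q3] at q1 q4
      linarith)
  set y : ℕ → ℕ → ℕ := fun e k => (S2 e k).1 with hy
  set ρ : ℕ → ℕ → ℕ := fun e k => (S2 e k).2 with hρ
  have hQ : ∀ e k, dist (c (y e (k + 1))) (c (y e k)) < 1 / 2 ^ (ρ e k + 3) ∧
      4 / 2 ^ ρ e (k + 1) < dist (c (y e (k + 1))) (c (y e k)) ∧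
      4 / 2 ^ ρ e (k + 1) < dist (c (y e (k + 1))) (c k) ∧ ρ e k + 3 ≤ ρ e (k + 1) := by
    intro e k
    obtain ⟨z, hz, hz'⟩ := hSS2 e k
    simp only [Bool.and_eq_true, decide_eq_true_eq] at hz
    obtain ⟨h1, h2, h3, h4⟩ := hz
    have e1 : y e (k + 1) = z.unpair.1 := by simp only [hy, hz']
    have e2 : ρ e (k + 1) = z.unpair.2.unpair.1 := by simp only [hρ, hz']
    rw [e1, e2]
    refine ⟨?_, ?_, ?_, h4⟩
    · have := hL1 _ _ _ _ h1
      simpa using this
    · have := hG1 _ _ _ _ h2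
      simpa using this
    · have := hG1 _ _ _ _ h3
      simpa using this
  have hw : ∀ e, ∃ w, ∀ k, dist (c (y e k)) w ≤ 1 / 2 ^ ρ e k / 4 := fun e =>
    lim_lemma (fun k => c (y e k)) (ρ e) (fun k => (hQ e k).1.le) (fun k => (hQ e k).2.2.2)
  choose w hw using hw
  have hy0 : ∀ e, y e 0 = p e := fun e => by simp only [hy, hp, hS02]
  have hρ0 : ∀ e, ρ e 0 = A (e + 1) := fun e => by simp only [hρ, hA, hS02]
  have hAm : StrictMono A := strictMono_nat_of_lt_succ (fun e => (hP e).2.2)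
  have key : ∀ e e', e < e' → 2 / 2 ^ ρ e 0 + 2 / 2 ^ ρ e' 0 ≤ dist (w e) (w e') := by
    intro e e' hee
    obtain ⟨h1, h2, h3⟩ := hP e
    obtain ⟨h1', h2', h3'⟩ := hP e'
    have g1 := hw e 0
    have g2 := hw e' 0
    rw [hy0, hρ0] at g1 g2
    rw [hρ0, hρ0]
    have m1 : A (e + 1) ≤ A e' := hAm.monotone hee
    set X : ℝ := 1 / 2 ^ A (e + 1) with hX
    have x1 : (1:ℝ) / 2 ^ A (e' + 1) ≤ X := by
      apply one_div_le_one_div_of_le (by positivity)
      exact pow_le_pow_right₀ (by norm_num) (by omega)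
    have x2 : (1:ℝ) / 2 ^ (A e' + 4) ≤ X / 16 := by
      have : X / 16 = 1 / 2 ^ (A (e + 1) + 4) := by
        rw [hX, pow_add]
        field_simp
        norm_num
      rw [this]
      apply one_div_le_one_div_of_le (by positivity)
      exact pow_le_pow_right₀ (by norm_num) (by omega)
    have x0 : 0 < X := by positivity
    have x3 : (16:ℝ) / 2 ^ A (e + 1) = 16 * X := by rw [hX]; ring
    have x4 : (2:ℝ) / 2 ^ A (e + 1) = 2 * X := by rw [hX]; ring
    have x5 : (2:ℝ) / 2 ^ A (e' + 1) = 2 * (1 / 2 ^ A (e' + 1)) := by ring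
    rw [x3] at h2
    rw [x4, x5]
    have t1 := dist_triangle (c (p e)) (w e) (c o)
    have t2 := dist_triangle (w e) (w e') (c o)
    have t3 := dist_triangle_left (w e') (c o) (c (p e'))
    linarith
  have hAe : ∀ e, e + 1 ≤ A e := by
    intro e
    induction e with
    | zero =>
      have h1 := hAu 0
      omega
    | succ e ih =>
      have h1 := (hP e).2.2
      omega
  refine ⟨y, ρ, w, ?_, ?_, ?_, ?_, ?_, ?_, ?_, ?_, ?_, ?_⟩
  · exact Computable.fst.comp hSc2
  · exact Computable.snd.comp hSc2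
  · intro e k
    have := (hQ e k).2.2.2
    omega
  · intro e k
    exact (hSI2 e k).2
  · intro e k
    obtain ⟨h1, h2, h3, h4⟩ := hQ e k
    have g1 := hw e (k + 1)
    have t := dist_triangle_right (c (y e (k + 1))) (c (y e k)) (w e)
    have x1 : (4:ℝ) / 2 ^ ρ e (k + 1) = 4 * (1 / 2 ^ ρ e (k + 1)) := by ring
    have x2 : (2:ℝ) / 2 ^ ρ e (k + 1) = 2 * (1 / 2 ^ ρ e (k + 1)) := by ring
    have x3 : (0:ℝ) < 1 / 2 ^ ρ e (k + 1) := by positivity
    rw [x1] at h2
    rw [x2]
    linarith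
  · intro e k
    have g1 := hw e k
    have x3 : (0:ℝ) < 1 / 2 ^ ρ e k := by positivity
    linarith
  · intro e i hi
    obtain ⟨h1, h2, h3, h4⟩ := hQ e i
    have g1 := hw e (i + 1)
    rw [hi] at h3
    have x1 : (4:ℝ) / 2 ^ ρ e (i + 1) = 4 * (1 / 2 ^ ρ e (i + 1)) := by ring
    have x3 : (0:ℝ) < 1 / 2 ^ ρ e (i + 1) := by positivity
    rw [x1] at h3
    linarith
  · intro e e' hne
    rcases lt_or_gt_of_ne hne with h | h
    · exact key e e' h
    · rw [dist_comm, add_comm]
      exact key e' e h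
  · intro e
    obtain ⟨h1, h2, h3⟩ := hP e
    have g1 := hw e 0
    rw [hy0, hρ0] at g1
    have t1 := dist_triangle_left (w e) (c o) (c (p e))
    have x1 : (1:ℝ) / 2 ^ A (e + 1) ≤ 1 / 2 ^ e := by
      apply one_div_le_one_div_of_le (by positivity)
      exact pow_le_pow_right₀ (by norm_num) (by have := hAe e; omega)
    have x2 : (1:ℝ) / 2 ^ (A e + 4) ≤ 1 / 2 ^ e / 2 := by
      rw [div_div, ← pow_succ]
      apply one_div_le_one_div_of_le (by positivity)
      exact pow_le_pow_right₀ (by norm_num) (by have := hAe e; omega)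
    have x0 : (0:ℝ) < 1 / 2 ^ e := by positivity
    linarith
  · intro e
    obtain ⟨h1, h2, h3⟩ := hP e
    have g1 := hw e 0
    rw [hy0, hρ0] at g1
    rw [hρ0]
    have t1 := dist_triangle_right (c (p e)) (c o) (w e)
    have x0 : (0:ℝ) < 1 / 2 ^ A (e + 1) := by positivity
    have x3 : (16:ℝ) / 2 ^ A (e + 1) = 16 * (1 / 2 ^ A (e + 1)) := by ring
    have x4 : (2:ℝ) / 2 ^ A (e + 1) = 2 * (1 / 2 ^ A (e + 1)) := by ring
    rw [x3] at h2
    rw [x4]
    linarith

end Pool.Agent.H938R3.TD
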