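import Pool.Agent.H938R3.TD.Ht
import Pool.Agent.H938R3.TD.Geo1
import Pool.Agent.H938R3.TD.GM2
import Pool.Agent.Helper583.TTBSpace

/-!
A region without isolated points: the two presentations, one-sided version.
-/

namespace Pool.Agent.H938R3.TD

open Filter Topology
open Pool.Agent.Helper583.TT hiding Prm tst n2 com cvd fu fz ev1 stp sts num acts ps ps_mem ps_lim num_le computable_sts computable_num computable_acts acts_unique
open Pool.Agent.H938R3.TC

/-- everything which is fixed before the construction -/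
structure Geo1 {Y : Type} [MetricSpace Y] (c : ℕ → Y) extends Geo c where
  o : ℕ
  sp : ℕ → ℕ → ℕ → Bool
  hsp : Computable fun p : ℕ × ℕ × ℕ => sp p.1 p.2.1 p.2.2
  sp1 : ∀ m m' K, sp m m' K = true → 1 / 2 ^ K ≤ dist (c m) (c m')
  sp2 : ∀ m m' K, 2 / 2 ^ K < dist (c m) (c m') → sp m m' K = true
  wo : ∀ e, dist (w e) (c o) ≤ 1 / 2 ^ e
  ow : ∀ e, 2 / 2 ^ ρ e 0 ≤ dist (c o) (w e)

/-- the parameters -/
def Geo1.Q {Y : Type} [MetricSpace Y] {c : ℕ → Y} (G : Geo1 c) : Prm :=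
  ⟨G.y, G.sp, G.ell, G.cl, G.o⟩

/-- everything which is fixed before the construction, with a low oracle -/
structure GeoA {Y : Type} [MetricSpace Y] (c : ℕ → Y) extends Geo1 c where
  A : ℕ → Bool
  α : ℕ → List Bool
  ap : Apx A (Evt toGeo1.Q) α

variable {Y : Type} [MetricSpace Y] {c : ℕ → Y}

theorem exists_geoA [CompleteSpace Y] (hd : DenseRange c)
    (hinj : Function.Injective c) (hc : CR fun p : ℕ × ℕ => dist (c p.1) (c p.2))
    (o u : ℕ) (hU : ∀ x : Y, dist x (c o) < 1 / 2 ^ u → ¬ IsOpen ({x} : Set Y))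
    {A : ℕ → Bool} (hA : LowCE A) : ∃ G : GeoA c, G.A = A := by
  obtain ⟨y, ρ, w, h1, h2, h3, h4, h5, h6, h7, h8, h9, h10⟩ := geom1 c hd hinj hc o u hU
  obtain ⟨fr, ell, cl, k1, k2, k3, k4, k5, k6, k7, k8, k9, k10⟩ :=
    exists_prm hinj hc h1 h2 h4 h6 h7
  obtain ⟨b, hb, hb1⟩ := CR.cmp
    ((hc.comp (g := fun q : ℕ × ℕ × ℕ => (q.1, q.2.1))
      (Computable.fst.pair (Computable.fst.comp Computable.snd))).div_pow
        (n := fun _ : ℕ × ℕ × ℕ => 1) (Computable.const 1))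
    (n := fun q : ℕ × ℕ × ℕ => q.2.2) (Computable.snd.comp Computable.snd)
  let G : Geo1 c := 
    { hd := hd, hc := hc, y := y, ρ := ρ, w := w, hy := h1, hρ := h2, ρ0 := h3, ρ1 := h4,
      yl := h5, yu := h6, wn := h7, ws := h8, fr := fr, ell := ell, cl := cl, hfr := k1,
      hell := k2, hcl := k3, fr1 := k4, fr2 := k5, ell1 := k6, ell2 := k7, ell3 := k8,
      cl1 := k9, cl2 := k10
      o := o
      sp := fun m m' K => !(b (m, m', K))
      hsp := Primrec.not.to_comp.comp hb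
      sp1 := by
        intro m m' K h
        have h11 : b (m, m', K) = false := by simpa using h
        by_contra hcon
        push Not at hcon
        have h12 := (hb1 (m, m', K)).1 (by
          show dist (c m) (c m') / 2 ^ 1 ≤ 1 / 2 ^ K / 2
          rw [pow_one]
          exact div_le_div_of_nonneg_right hcon.le (by norm_num))
        rw [h11] at h12
        exact Bool.false_ne_true h12
      sp2 := by
        intro m m' K h
        by_contra hcon
        have h11 : b (m, m', K) = true := by simpa using hcon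
        have h12 : dist (c m) (c m') / 2 ^ 1 ≤ 1 / 2 ^ K := (hb1 (m, m', K)).2 h11
        rw [pow_one, div_le_iff₀ (by norm_num)] at h12
        have h13 : (2:ℝ) / 2 ^ K = 1 / 2 ^ K * 2 := by ring
        linarith
      wo := h9
      ow := h10 }
  obtain ⟨α, hα⟩ := hA.apx (Evt G.Q) (computable_Evt G.Q G.hy G.hsp G.hell G.hcl)
  exact ⟨⟨G, A, α, hα⟩, rfl⟩

namespace GeoA

variable (G : GeoA c)

/-- the limit of the positions -/
noncomputable def L (e : ℕ) : ℝ := (ps_lim G.ap e).choose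

theorem hL (e : ℕ) : Tendsto (ps G.Q G.α e) atTop (𝓝 (G.L e)) := (ps_lim G.ap e).choose_spec

/-- the limit of the heights -/
noncomputable def H (e : ℕ) : ℝ := (ht_lim G.ap e).choose

theorem hH (e : ℕ) : Tendsto (ht G.Q G.α e) atTop (𝓝 (G.H e)) := (ht_lim G.ap e).choose_spec.1

theorem H_pos (e : ℕ) : 0 < G.H e := (ht_lim G.ap e).choose_spec.2

theorem mono (e : ℕ) : StrictMono (G.ρ e) := strictMono_nat_of_lt_succ (G.ρ0 e)

/-- first coordinates -/
noncomputable def pi (e : ℕ) (x : Y) : ℝ := theta (G.ρ e) (ht G.Q G.α e) (G.H e) (dist x (G.w e))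

theorem pi_mem (e : ℕ) (x : Y) : 0 ≤ G.pi e x ∧ G.pi e x ≤ 1 :=
  theta_mem (fun k => (ht_mem G.Q G.α e k).1) (fun k => (ht_mem G.Q G.α e k).2) (G.hH e) _

theorem pi_cont (e : ℕ) : Continuous (G.pi e) := by
  have h1 := theta_continuous (G.mono e) (fun k => (ht_mem G.Q G.α e k).1)
    (fun k => (ht_mem G.Q G.α e k).2) (G.hH e)
  exact h1.comp_continuous (continuous_id.dist continuous_const) fun x => dist_nonneg

theorem pi_far {e : ℕ} {x : Y} (h : 2 / 2 ^ G.ρ e 0 ≤ dist x (G.w e)) : G.pi e x = 0 :=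
  theta_eq_zero (G.mono e) (fun k => (ht_mem G.Q G.α e k).1) (fun k => (ht_mem G.Q G.α e k).2) h

theorem pi_y (e k : ℕ) : G.pi e (c (G.y e k)) = ht G.Q G.α e k :=
  theta_eq_pos (G.mono e) (fun k => (ht_mem G.Q G.α e k).1) (fun k => (ht_mem G.Q G.α e k).2)
    (G.yl e k) (G.yu e k)

theorem pi_w (e : ℕ) : G.pi e (G.w e) = G.H e := by
  unfold pi theta
  rw [dist_self, if_pos le_rfl]

theorem pi_w' {e e' : ℕ} (h : e' ≠ e) : G.pi e' (G.w e) = 0 := by
  apply G.pi_far
  have h1 := G.ws e e' h.symm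
  have h2 : (0:ℝ) ≤ 2 / 2 ^ G.ρ e 0 := by positivity
  linarith

theorem pi_o (e : ℕ) : G.pi e (c G.o) = 0 := G.pi_far (G.ow e)

theorem yd (e k : ℕ) : dist (c (G.y e k)) (G.w e) ≤ 1 / 2 ^ (k + 2) := by
  refine le_trans (G.yu e k) ?_
  have h1 := pow_le_pow_right₀ (show (1:ℝ) ≤ 2 by norm_num) (G.ρ1 e k)
  rw [div_div]
  apply one_div_le_one_div_of_le (by positivity)
  rw [show k + 2 = (k + 1) + 1 by ring, pow_succ]
  linarith

theorem pi_y' {e e' : ℕ} (k : ℕ) (h : e' ≠ e) : G.pi e' (c (G.y e k)) = 0 := by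
  apply G.pi_far
  have h1 := G.ws e e' h.symm
  have h2 : dist (c (G.y e k)) (G.w e) ≤ 2 / 2 ^ G.ρ e 0 := by
    refine le_trans (G.yu e k) ?_
    have h3 : (1:ℝ) / 2 ^ G.ρ e k ≤ 1 / 2 ^ G.ρ e 0 := by
      apply one_div_le_one_div_of_le (by positivity)
      exact pow_le_pow_right₀ (by norm_num) ((G.mono e).monotone (Nat.zero_le k))
    have h4 : (2:ℝ) / 2 ^ G.ρ e 0 = 2 * (1 / 2 ^ G.ρ e 0) := by ring
    have h5 : (0:ℝ) ≤ 1 / 2 ^ G.ρ e 0 := by positivity
    linarith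
  have h3 := dist_triangle (G.w e) (c (G.y e k)) (G.w e')
  rw [dist_comm (G.w e) (c (G.y e k))] at h3
  linarith

theorem w_lim : Tendsto G.w atTop (𝓝 (c G.o)) := by
  rw [tendsto_iff_dist_tendsto_zero]
  have h3 : Tendsto (fun n : ℕ => (1 : ℝ) / 2 ^ n) atTop (𝓝 0) := pow_lim
  exact squeeze_zero (fun n => dist_nonneg) G.wo h3

/-- coordinates of the first space -/
noncomputable def ΦN : Crd2 Y where
  f := G.pi
  nonneg := fun e x => (G.pi_mem e x).1
  le_one := fun e x => (G.pi_mem e x).2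
  cont := G.pi_cont
  F := insert (c G.o) (Set.range G.w)
  cpt := G.w_lim.isCompact_insert_range
  ne := ⟨_, Set.mem_insert _ _⟩
  sep := by
    have key : ∀ e y, y ∈ insert (c G.o) (Set.range G.w) → G.pi e (G.w e) = G.pi e y →
        G.w e = y := by
      intro e y hy h
      rw [G.pi_w] at h
      have h1 := G.H_pos e
      rcases hy with rfl | ⟨e', rfl⟩
      · rw [G.pi_o] at h
        linarith
      · by_cases he : e' = e
        · rw [he]
        · rw [G.pi_w' (Ne.symm he)] at h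
          linarith
    rintro x (rfl | ⟨e, rfl⟩) y hy h
    · rcases hy with rfl | ⟨e', rfl⟩
      · rfl
      · exact (key e' _ (Set.mem_insert _ _) (h e').symm).symm
    · exact key e y hy (h e)

/-- coordinates of the second space -/
noncomputable def ΦM : Crd Y where
  f := phi (acts G.Q G.α) G.ell c
  nonneg := fun e x => (phi_mem _ _ _ e x).1
  le_one := fun e x => (phi_mem _ _ _ e x).2
  cont := fun e => phi_cont _ _ _ e

theorem comp_sts : Computable₂ (sts G.Q G.α) :=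
  computable_sts G.Q G.hy G.hsp G.hell G.hcl G.ap.comp

theorem cr_N : CR fun p : ℕ × ℕ => G.ΦN.f p.1 (c p.2) :=
  cr_theta1 G.hc G.hy G.hρ G.ρ0 G.ρ1 G.yu G.wn (cr_ht G.comp_sts)
    (ht_mem G.Q G.α) G.H

theorem cr_M : CR fun p : ℕ × ℕ => G.ΦM.f p.1 (c p.2) :=
  cr_phi (computable_acts G.Q G.comp_sts) (fun e _ _ h h' => acts_unique G.Q G.α e h h') G.hell G.hc

theorem rr_o : rr G.ΦN (c G.o) = 0 := by
  apply le_antisymm _ (rr_nonneg _)
  have h := Metric.infDist_le_dist_of_mem (x := c G.o) (Set.mem_insert (c G.o) (Set.range G.w))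
  rw [dist_self] at h
  exact h

theorem rr_le_w (e : ℕ) (x : Y) : rr G.ΦN x ≤ dist x (G.w e) :=
  Metric.infDist_le_dist_of_mem (Set.mem_insert_of_mem _ ⟨e, rfl⟩)

theorem rr_le_o (x : Y) : rr G.ΦN x ≤ dist x (c G.o) :=
  Metric.infDist_le_dist_of_mem (Set.mem_insert _ _)

theorem cr_rr : CR fun i : ℕ => rr G.ΦN (c i) := by
  have h1 : CR fun p : ℕ × ℕ => dist (c p.2) (G.w p.1) := cr_dw G.hc G.hy G.ρ1 G.yu
  have h2 : CR fun q : (ℕ × ℕ) × ℕ => dist (c q.1.1) (G.w q.2) :=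
    h1.comp (g := fun q : (ℕ × ℕ) × ℕ => (q.2, q.1.1))
      (Computable.snd.pair (Computable.fst.comp Computable.fst))
  have h3 := h2.mn (n := fun q : ℕ × ℕ => q.2) Computable.snd
  have h4 : CR fun q : ℕ × ℕ => dist (c q.1) (c G.o) :=
    G.hc.comp (g := fun q : ℕ × ℕ => (q.1, G.o)) (Computable.fst.pair (Computable.const _))
  refine CR.lim (h4.min h3) ?_
  intro i k
  show |rr G.ΦN (c i) - min (dist (c i) (c G.o)) (mn (fun e => dist (c i) (G.w e)) k)| ≤ 1 / 2 ^ k
  have h5 : rr G.ΦN (c i) ≤ min (dist (c i) (c G.o)) (mn (fun e => dist (c i) (G.w e)) k) := by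
    refine le_min (G.rr_le_o _) ?_
    obtain ⟨j, -, hj⟩ := mn_mem (fun e => dist (c i) (G.w e)) k
    rw [hj]
    exact G.rr_le_w j _
  have h6 : min (dist (c i) (c G.o)) (mn (fun e => dist (c i) (G.w e)) k) - 1 / 2 ^ k ≤
      rr G.ΦN (c i) := by
    refine (Metric.le_infDist (s := G.ΦN.F) G.ΦN.ne).2 ?_
    have hp : (0:ℝ) < 1 / 2 ^ k := by positivity
    rintro z (rfl | ⟨e, rfl⟩)
    · have := min_le_left (dist (c i) (c G.o)) (mn (fun e => dist (c i) (G.w e)) k)
      linarith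
    · rcases le_or_gt e k with he | he
      · have a1 := min_le_right (dist (c i) (c G.o)) (mn (fun e => dist (c i) (G.w e)) k)
        have a2 := mn_le (fun e => dist (c i) (G.w e)) he
        linarith
      · have a1 := min_le_left (dist (c i) (c G.o)) (mn (fun e => dist (c i) (G.w e)) k)
        have a2 := dist_triangle (c i) (G.w e) (c G.o)
        have a3 := G.wo e
        have a4 := pow_anti he.le
        linarith
  rw [abs_le]
  constructor
  · linarith
  · have hp : (0:ℝ) < 1 / 2 ^ k := by positivity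
    linarith

/-- the first presentation -/
noncomputable def N [CompleteSpace Y] : CMS :=
  haveI : CompleteSpace (GM2 G.ΦN) := gm2_complete
  { Y := GM2 G.ΦN
    c := fun i => ⟨c i⟩
    dense := gm2_dense G.hd
    comp := comp_of_cr (cr_gm2 G.hc G.ΦN G.cr_rr G.cr_N) }

/-- the second presentation -/
noncomputable def M [CompleteSpace Y] : CMS :=
  haveI : CompleteSpace (GM G.ΦM) := gm_complete
  { Y := GM G.ΦM
    c := fun i => ⟨c i⟩
    dense := gm_dense G.hd
    comp := comp_of_cr (cr_gm G.hc G.ΦM G.cr_M) }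

/-- distance of points with only one coordinate -/
theorem dist_one {e : ℕ} {x x' : Y} (h : ∀ e' ≠ e, G.pi e' x = 0) (h' : ∀ e' ≠ e, G.pi e' x' = 0) :
    dist (⟨x⟩ : GM2 G.ΦN) ⟨x'⟩ = dg G.ΦN x x' + |G.pi e x - G.pi e x'| / 2 ^ e := by
  rw [gm2_dist]
  congr 1
  refine (tsum_eq_single e fun e' he' => ?_).trans rfl
  show |G.pi e' x - G.pi e' x'| / 2 ^ e' = 0
  rw [h e' he', h' e' he', sub_zero, abs_zero, zero_div]

theorem near_y {e j g k : ℕ} (hg : j ≤ g) (hk : j ≤ k)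
    (h : |ps G.Q G.α e g - ps G.Q G.α e k| < 2 ^ e / 2 ^ (j + 1)) :
    dist (⟨c (G.y e g)⟩ : GM2 G.ΦN) ⟨c (G.y e k)⟩ ≤ 1 / 2 ^ j := by
  rw [G.dist_one (e := e) (fun e' he' => G.pi_y' g he') (fun e' he' => G.pi_y' k he'), G.pi_y,
    G.pi_y]
  have h0 := dg_le (Φ := G.ΦN) (c (G.y e g)) (c (G.y e k))
  have h1 := dist_triangle_right (c (G.y e g)) (c (G.y e k)) (G.w e)
  have h2 := G.yd e g
  have h3 := G.yd e k
  have h4 := pow_anti (show j + 2 ≤ g + 2 by omega)
  have h5 := pow_anti (show j + 2 ≤ k + 2 by omega)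
  have h6 : |ht G.Q G.α e g - ht G.Q G.α e k| / 2 ^ e ≤ 1 / 2 ^ (j + 1) := by
    rw [div_le_iff₀ (by positivity)]
    have : (2:ℝ) ^ e / 2 ^ (j + 1) = 1 / 2 ^ (j + 1) * 2 ^ e := by ring
    have := ht_lip (P := G.Q) (α := G.α) (e := e) (g := g) (k := k)
    linarith
  have h7 := pow_split j
  have h8 := pow_split (j + 1)
  simp only [show j + 1 + 1 = j + 2 by ring] at h8
  linarith

/-- late points at position one are close to the special point -/
theorem near_o {e j k k₀ : ℕ} (h0 : trn G.Q G.α e 0 k₀ = true) (hj : j ≤ k₀) (hk : k₀ < k)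
    (h : num G.Q G.α e k = 2 ^ k) :
    dist (⟨c G.o⟩ : GM2 G.ΦN) ⟨c (G.y e k)⟩ ≤ 1 / 2 ^ j := by
  rw [G.dist_one (e := e) (fun e' he' => G.pi_o e') (fun e' he' => G.pi_y' k he'), G.pi_o,
    G.pi_y, ht_one h, kz_of_trn h0 hk]
  have h1 : dg G.ΦN (c G.o) (c (G.y e k)) ≤ rr G.ΦN (c G.o) + rr G.ΦN (c (G.y e k)) :=
    min_le_right _ _
  rw [G.rr_o, zero_add] at h1
  have h2 := G.rr_le_w e (c (G.y e k))
  have h3 := G.yd e k
  have h4 := pow_anti (show j + 1 ≤ k + 2 by omega)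
  have h5 := pow_anti (show j + 1 ≤ k₀ + 1 + 2 by omega)
  have h6 : |0 - 1 / 2 ^ (k₀ + 1 + 2)| / 2 ^ e ≤ (1:ℝ) / 2 ^ (k₀ + 1 + 2) := by
    rw [zero_sub, abs_neg, abs_of_nonneg (by positivity)]
    exact div_le_self (by positivity) (one_le_pow₀ (by norm_num))
  have h7 := pow_split j
  linarith

end GeoA

end Pool.Agent.H938R3.TD
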