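import Pool.Agent.H938R3.TD.BEvt
import Pool.Agent.H938R3.TD.BTrans
import Pool.Agent.Helper583.TTBPrm

/-!
Heights: the height is `1` at position zero and small, but positive, at position one.
-/

namespace Pool.Agent.H938R3.TD

open Filter Topology
open Pool.Agent.Helper583.TT hiding Prm tst n2 com cvd fu fz ev1 stp sts num acts ps ps_mem ps_lim num_le
open Pool.Agent.H938R3.TC

/-- number of the stages in mode zero below `k` -/
def kz (P : Prm) (α : ℕ → List Bool) (e k : ℕ) : ℕ :=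
  Nat.rec 0 (fun j r => if (sts P α e j).1 = 0 then j + 1 else r) k

/-- the height number `k` -/
noncomputable def ht (P : Prm) (α : ℕ → List Bool) (e k : ℕ) : ℝ :=
  1 - ps P α e k * (1 - 1 / 2 ^ (kz P α e k + 2))

variable {A : ℕ → Bool} {P : Prm} {α : ℕ → List Bool}

theorem kz_succ (P : Prm) (α : ℕ → List Bool) (e k : ℕ) :
    kz P α e (k + 1) = if md P α e k = 0 then k + 1 else kz P α e k := rfl

theorem kz_zero {e k : ℕ} (h : md P α e k = 0) : kz P α e (k + 1) = k + 1 := by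
  rw [kz_succ, if_pos h]

theorem kz_const {e g k : ℕ} (h : 0 < md P α e g) (hk : g ≤ k) : kz P α e k = kz P α e g := by
  induction k, hk using Nat.le_induction with
  | base => rfl
  | succ k hk ih =>
    have h1 := md_mono P α e hk
    rw [kz_succ, if_neg (by omega), ih]

theorem kz_of_trn {e k₀ k : ℕ} (h : trn P α e 0 k₀ = true) (hk : k₀ < k) :
    kz P α e k = k₀ + 1 := by
  obtain ⟨h1, h2⟩ := trn_iff.1 h
  rw [kz_const (g := k₀ + 1) (by omega) hk, kz_zero h1]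

theorem dl_mem (n : ℕ) : 0 < (1 : ℝ) / 2 ^ (n + 2) ∧ (1 : ℝ) / 2 ^ (n + 2) ≤ 1 / 4 := by
  refine ⟨by positivity, ?_⟩
  have h1 : (1 : ℝ) ≤ 2 ^ n := one_le_pow₀ (by norm_num)
  rw [pow_add]
  apply one_div_le_one_div_of_le (by norm_num)
  linarith

theorem ht_mem (P : Prm) (α : ℕ → List Bool) (e k : ℕ) : 0 ≤ ht P α e k ∧ ht P α e k ≤ 1 := by
  obtain ⟨h1, h2⟩ := ps_mem P α e k
  obtain ⟨h3, h4⟩ := dl_mem (kz P α e k)
  unfold ht
  constructor <;> nlinarith

theorem ht_zero {e k : ℕ} (h : num P α e k = 0) : ht P α e k = 1 := by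
  unfold ht ps
  rw [h]
  simp

theorem ht_one {e k : ℕ} (h : num P α e k = 2 ^ k) : ht P α e k = 1 / 2 ^ (kz P α e k + 2) := by
  unfold ht ps
  rw [h]
  push_cast
  rw [div_self (by positivity)]
  ring

theorem ht_lip {e g k : ℕ} : |ht P α e g - ht P α e k| ≤ |ps P α e g - ps P α e k| := by
  wlog hgk : g ≤ k generalizing g k
  · rw [abs_sub_comm, abs_sub_comm (ps P α e g)]
    exact this (by omega)
  obtain ⟨a1, a2⟩ := ps_mem P α e k
  obtain ⟨b1, b2⟩ := dl_mem (kz P α e k)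
  rcases Nat.eq_zero_or_pos (md P α e g) with h | h
  · have h1 : num P α e g = 0 := (step0 P α e g h).1
    rw [ht_zero h1]
    have h2 : ps P α e g = 0 := by unfold ps; rw [h1]; simp
    rw [h2, zero_sub, abs_neg, abs_of_nonneg a1]
    unfold ht
    rw [abs_of_nonneg (by nlinarith)]
    nlinarith
  · have h1 : kz P α e k = kz P α e g := kz_const h hgk
    unfold ht
    rw [h1] at b1 b2 ⊢
    have h2 : (1 - ps P α e g * (1 - 1 / 2 ^ (kz P α e g + 2)) -
        (1 - ps P α e k * (1 - 1 / 2 ^ (kz P α e g + 2))) : ℝ) =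
        -((ps P α e g - ps P α e k) * (1 - 1 / 2 ^ (kz P α e g + 2))) := by ring
    rw [h2, abs_neg, abs_mul, abs_of_nonneg (show (0:ℝ) ≤ 1 - 1 / 2 ^ (kz P α e g + 2) by linarith)]
    have h3 := abs_nonneg (ps P α e g - ps P α e k)
    nlinarith

/-- the heights converge to a positive number -/
theorem ht_lim (hA : Apx A (Evt P) α) (e : ℕ) :
    ∃ H, Tendsto (ht P α e) atTop (𝓝 H) ∧ 0 < H := by
  rcases pass_or (P := P) (α := α) (e := e) (j := 0) (k1 := 0) (by norm_num) rfl with h | h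
  · refine ⟨1, ?_, one_pos⟩
    have : ht P α e = fun _ => 1 := by
      funext k
      exact ht_zero (step0 P α e k (h k (Nat.zero_le _))).1
    rw [this]
    exact tendsto_const_nhds
  · obtain ⟨s, -, hs⟩ := h
    obtain ⟨L, hL⟩ := ps_lim hA e
    refine ⟨1 - L * (1 - 1 / 2 ^ (s + 1 + 2)), ?_, ?_⟩
    · have h1 : Tendsto (fun k => 1 - ps P α e k * (1 - 1 / 2 ^ (s + 1 + 2))) atTop
          (𝓝 (1 - L * (1 - 1 / 2 ^ (s + 1 + 2)))) :=
        tendsto_const_nhds.sub (hL.mul_const _)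
      refine h1.congr' ?_
      filter_upwards [eventually_gt_atTop s] with k hk
      unfold ht
      rw [kz_of_trn hs hk]
    · have h1 : L ≤ 1 := le_of_tendsto' hL fun k => (ps_mem P α e k).2
      obtain ⟨h2, h3⟩ := dl_mem (s + 1)
      nlinarith

section

attribute [local irreducible] sts

theorem computable_kz {β : ℕ → List Bool} (h : Computable₂ (sts P β)) :
    Computable₂ (kz P β) := by
  have h0 : Computable fun q : (ℕ × ℕ) × ℕ × ℕ => sts P β q.1.1 q.2.1 :=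
    Computable.comp h ((Computable.fst.comp Computable.fst).pair
      (Computable.fst.comp Computable.snd))
  have h1 := Computable.cond
    (Primrec.eq.decide.to_comp.comp (Computable.fst.comp h0) (Computable.const (0 : ℕ)))
    (Computable.succ.comp (Computable.fst.comp (Computable.snd (α := ℕ × ℕ) (β := ℕ × ℕ))))
    (Computable.snd.comp (Computable.snd (α := ℕ × ℕ) (β := ℕ × ℕ)))
  have h2 := Computable.nat_rec (f := fun a : ℕ × ℕ => a.2) (g := fun _ : ℕ × ℕ => (0 : ℕ))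
    (h := fun a q => cond (decide ((sts P β a.1 q.1).1 = 0)) (q.1 + 1) q.2)
    Computable.snd (Computable.const _) h1.to₂
  refine h2.of_eq fun a => ?_
  unfold kz
  generalize a.2 = n
  induction n with
  | zero => rfl
  | succ n ih =>
    simp only [] at ih ⊢
    rw [ih]
    by_cases h3 : (sts P β a.1 n).1 = 0
    · rw [decide_eq_true h3, cond_true, if_pos h3]
    · rw [decide_eq_false h3, cond_false, if_neg h3]

theorem cr_ht {β : ℕ → List Bool} (h : Computable₂ (sts P β)) :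
    CR fun p : ℕ × ℕ => ht P β p.1 p.2 := by
  have hn : Computable fun p : ℕ × ℕ => num P β p.1 p.2 := computable_num P h
  have hz : Computable fun p : ℕ × ℕ => kz P β p.1 p.2 + 2 :=
    Primrec.nat_add.to_comp.comp (computable_kz h) (Computable.const 2)
  have hk : Computable fun p : ℕ × ℕ => p.2 := Computable.snd
  have hs : Computable fun p : ℕ × ℕ => p.2 + (kz P β p.1 p.2 + 2) := c_add hk hz
  have h1 : Computable fun p : ℕ × ℕ => 2 ^ (p.2 + (kz P β p.1 p.2 + 2)) -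
      num P β p.1 p.2 * (2 ^ (kz P β p.1 p.2 + 2) - 1) :=
    c_sub (c_pow2 hs) (c_mul hn (c_sub (c_pow2 hz) (Computable.const 1)))
  refine ((CR.nat h1).div_pow hs).congr fun p => ?_
  obtain ⟨z, hzz⟩ : ∃ z, z = kz P β p.1 p.2 + 2 := ⟨_, rfl⟩
  unfold ht ps
  rw [← hzz]
  have h2 : 1 ≤ 2 ^ z := Nat.one_le_two_pow
  have h3 := num_le P β p.1 p.2
  have h4 : num P β p.1 p.2 * (2 ^ z - 1) ≤ 2 ^ (p.2 + z) := by
    rw [pow_add]
    exact Nat.mul_le_mul h3 (Nat.sub_le _ _)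
  rw [Nat.cast_sub h4]
  push_cast [Nat.cast_sub h2]
  rw [pow_add]
  field_simp

/-- values of the coordinates -/
theorem cr_theta1 {Y : Type} [MetricSpace Y] {c : ℕ → Y}
    (hc : CR fun p : ℕ × ℕ => dist (c p.1) (c p.2)) {y ρ : ℕ → ℕ → ℕ} {w : ℕ → Y}
    (hy : Computable₂ y) (hρ : Computable₂ ρ) (hρ0 : ∀ e k, ρ e k < ρ e (k + 1))
    (hρ1 : ∀ e k, k + 1 ≤ ρ e k)
    (hyw : ∀ e k, dist (c (y e k)) (w e) ≤ 1 / 2 ^ ρ e k / 2) (hw : ∀ e i, c i ≠ w e)
    {nu : ℕ → ℕ → ℝ} (hnu : CR fun p : ℕ × ℕ => nu p.1 p.2)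
    (hnu1 : ∀ e k, 0 ≤ nu e k ∧ nu e k ≤ 1) (L : ℕ → ℝ) :
    CR fun p : ℕ × ℕ => theta (ρ p.1) (nu p.1) (L p.1) (dist (c p.2) (w p.1)) := by
  have hd := cr_dw hc hy hρ1 hyw
  obtain ⟨n, hn, hn1⟩ := hd.find_pos (fun p => dist_pos.2 (hw p.1 p.2))
  have hd' : CR fun q : (ℕ × ℕ) × ℕ => dist (c q.1.2) (w q.1.1) := hd.comp Computable.fst
  have h1 : CR fun q : (ℕ × ℕ) × ℕ => nu q.1.1 q.2 :=
    hnu.comp (g := fun q : (ℕ × ℕ) × ℕ => (q.1.1, q.2))
      ((Computable.fst.comp Computable.fst).pair Computable.snd)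
  have hone : CR fun _ : (ℕ × ℕ) × ℕ => ((1 : ℕ) : ℝ) := CR.nat (Computable.const 1)
  have htwo : CR fun _ : (ℕ × ℕ) × ℕ => ((2 : ℕ) : ℝ) := CR.nat (Computable.const 2)
  have h2 : CR fun q : (ℕ × ℕ) × ℕ =>
      (dist (c q.1.2) (w q.1.1) + dist (c q.1.2) (w q.1.1)) * 2 ^ ρ q.1.1 (q.2 + 1) :=
    (hd'.add hd').mul_pow (hρ.comp (Computable.fst.comp Computable.fst)
      (Computable.succ.comp Computable.snd))
  have h3 : CR fun q : (ℕ × ℕ) × ℕ => dist (c q.1.2) (w q.1.1) * 2 ^ ρ q.1.1 q.2 :=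
    hd'.mul_pow (hρ.comp (Computable.fst.comp Computable.fst) Computable.snd)
  have h4 := h1.min (hone.min ((h2.tsub hone).min (htwo.tsub h3)))
  have h5 := h4.mx (n := fun p : ℕ × ℕ => n p + 1) (Computable.succ.comp hn)
  refine h5.congr ?_
  intro p
  have hK : (2 : ℝ) / 2 ^ ρ p.1 (n p + 1) ≤ dist (c p.2) (w p.1) := by
    refine le_trans ?_ (hn1 p).le
    have h6 := hρ1 p.1 (n p + 1)
    have h7 : (2 : ℝ) ^ (n p + 1) ≤ 2 ^ ρ p.1 (n p + 1) :=
      pow_le_pow_right₀ (by norm_num) (by omega)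
    rw [div_le_div_iff₀ (by positivity) (by positivity)]
    rw [pow_succ] at h7
    linarith
  rw [theta_eq_mx (strictMono_nat_of_lt_succ (hρ0 p.1)) (fun k => (hnu1 p.1 k).1)
    (fun k => (hnu1 p.1 k).2) hK]
  congr 1
  funext k
  unfold bump
  push_cast
  ring_nf

end

end Pool.Agent.H938R3.TD
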